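import Pool.Agent.H961.T3.Stm4

/-!
# Project MS, part GAPO: the law of the length of the cycle of a point
-/

set_option autoImplicit false
set_option linter.unusedSectionVars false
set_option linter.unusedVariables false

namespace Pool.Agent.H894.MS

open Finset Equiv Matrix Q292.LC Pool.Agent.H961.T2 Pool.Agent.H961.T3
open Pool.Agent.Y998.ST (stirExp nnRate cycleLen exp_mono exp_const exp_sum nn_nonneg)

/-! ### Test functions -/

/-- the cut-off function -/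
noncomputable def ph1 (θ η u : ℝ) : ℝ := min 1 (max 0 ((u - θ) / η))

/-- the test function -/
noncomputable def kp (θ η u : ℝ) : ℝ := max u 0 * ph1 θ η u

theorem ph1_nonneg (θ η u : ℝ) : 0 ≤ ph1 θ η u := le_min zero_le_one (le_max_left _ _)

theorem ph1_le_one (θ η u : ℝ) : ph1 θ η u ≤ 1 := min_le_left _ _

theorem ph1_zero {θ η u : ℝ} (hη : 0 < η) (h : u ≤ θ) : ph1 θ η u = 0 := by
  unfold ph1
  rw [max_eq_left (div_nonpos_of_nonpos_of_nonneg (by linarith) hη.le)]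
  exact min_eq_right zero_le_one

theorem ph1_one {θ η u : ℝ} (hη : 0 < η) (h : θ + η ≤ u) : ph1 θ η u = 1 := by
  unfold ph1
  apply min_eq_left
  refine le_trans ?_ (le_max_right _ _)
  rw [le_div_iff₀ hη]
  linarith

theorem ph1_lip {θ η : ℝ} (hη : 0 < η) (u v : ℝ) :
    |ph1 θ η u - ph1 θ η v| ≤ |u - v| / η := by
  unfold ph1
  refine (abs_min_sub_min_le_max _ _ _ _).trans ?_
  rw [sub_self, abs_zero]
  refine max_le (by positivity) ((abs_max_sub_max_le_max _ _ _ _).trans ?_)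
  rw [sub_self, abs_zero]
  refine max_le (by positivity) (le_of_eq ?_)
  rw [← sub_div, abs_div, abs_of_pos hη]
  congr 2
  ring

theorem kp_nonneg (θ η u : ℝ) : 0 ≤ kp θ η u :=
  mul_nonneg (le_max_right _ _) (ph1_nonneg _ _ _)

theorem kp_le {θ η u : ℝ} (hu : 0 ≤ u) : kp θ η u ≤ u := by
  unfold kp
  rw [max_eq_left hu]
  exact mul_le_of_le_one_right hu (ph1_le_one _ _ _)

theorem kp_eq {θ η u : ℝ} (hu : 0 ≤ u) : kp θ η u = u * ph1 θ η u := by
  unfold kp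
  rw [max_eq_left hu]

theorem kp_zero {θ η u : ℝ} (hη : 0 < η) (hθ : 1 / 2 ≤ θ) (h : u ≤ 1 / 2) : kp θ η u = 0 := by
  unfold kp
  rw [ph1_zero hη (h.trans hθ), mul_zero]

theorem kp_lip' {θ η : ℝ} (hη : 0 < η) (hη2 : η ≤ 1 / 2) (hθ : 1 / 2 ≤ θ) (hθ1 : θ ≤ 1)
    {x y : ℝ} (hxy : y ≤ x) : |kp θ η x - kp θ η y| ≤ 4 / η * |x - y| := by
  have hd : |x - y| = x - y := abs_of_nonneg (by linarith)
  obtain ⟨X, hX⟩ : ∃ X, X = max x 0 := ⟨_, rfl⟩
  obtain ⟨Y, hY⟩ : ∃ Y, Y = max y 0 := ⟨_, rfl⟩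
  have hY0 : 0 ≤ Y := by rw [hY]; exact le_max_right _ _
  have h1 : |X - Y| ≤ |x - y| := by
    rw [hX, hY]
    exact abs_max_sub_max_le_abs _ _ _
  have h2 : kp θ η x - kp θ η y = (X - Y) * ph1 θ η x + Y * (ph1 θ η x - ph1 θ η y) := by
    unfold kp
    rw [← hX, ← hY]
    ring
  have h3 : |(X - Y) * ph1 θ η x| ≤ |x - y| := by
    rw [abs_mul, abs_of_nonneg (ph1_nonneg θ η x)]
    exact (mul_le_of_le_one_right (abs_nonneg _) (ph1_le_one _ _ _)).trans h1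
  have h4 : |Y * (ph1 θ η x - ph1 θ η y)| ≤ 2 * (|x - y| / η) := by
    rcases le_total (θ + η) y with h | h
    · rw [ph1_one hη h, ph1_one hη (h.trans hxy), sub_self, mul_zero, abs_zero]
      positivity
    · rw [abs_mul, abs_of_nonneg hY0]
      refine mul_le_mul ?_ (ph1_lip hη x y) (abs_nonneg _) (by norm_num)
      rw [hY]
      exact max_le (by linarith) (by norm_num)
  have h5 : |x - y| ≤ 2 * (|x - y| / η) := by
    rw [mul_div_assoc', le_div_iff₀ hη]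
    nlinarith [abs_nonneg (x - y)]
  rw [h2]
  calc |(X - Y) * ph1 θ η x + Y * (ph1 θ η x - ph1 θ η y)| ≤
        |(X - Y) * ph1 θ η x| + |Y * (ph1 θ η x - ph1 θ η y)| := abs_add_le _ _
    _ ≤ 2 * (|x - y| / η) + 2 * (|x - y| / η) := by linarith
    _ = _ := by ring

theorem kp_lip {θ η : ℝ} (hη : 0 < η) (hη2 : η ≤ 1 / 2) (hθ : 1 / 2 ≤ θ) (hθ1 : θ ≤ 1)
    (x y : ℝ) : |kp θ η x - kp θ η y| ≤ 4 / η * |x - y| := by
  rcases le_total y x with h | h
  · exact kp_lip' hη hη2 hθ hθ1 h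
  · rw [abs_sub_comm, abs_sub_comm x y]
    exact kp_lip' hη hη2 hθ hθ1 h

/-! ### Sums over the cycles -/

section cyc

variable {V : Type} [Fintype V] [DecidableEq V]

theorem sum_card (hC : S_CYC) (g : Perm V) : ∑ C ∈ cycs g, (C.card : ℝ) = Fintype.card V := by
  have h := (hC V g).2.2.2.2 (fun _ => 1)
  rw [sum_const, card_univ, nsmul_eq_mul, mul_one] at h
  rw [h]
  exact sum_congr rfl fun C _ => (mul_one _).symm

theorem akS_nonneg (g : Perm V) {a θ η n : ℝ} (ha : 0 < a) : 0 ≤ a * kS (kp θ η) n g :=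
  mul_nonneg ha.le (sum_nonneg fun _ _ => kp_nonneg _ _ _)

theorem akS_le (hC : S_CYC) (g : Perm V) {a θ η : ℝ} (ha : 0 < a)
    (hV : 0 < (Fintype.card V : ℝ)) : a * kS (kp θ η) (a * Fintype.card V) g ≤ 1 := by
  have h1 : kS (kp θ η) (a * Fintype.card V) g ≤ ∑ C ∈ cycs g, (C.card : ℝ) / (a * Fintype.card V) :=
    sum_le_sum fun C _ => kp_le (by positivity)
  rw [← sum_div, sum_card hC g] at h1
  calc a * kS (kp θ η) (a * Fintype.card V) g ≤ a * (Fintype.card V / (a * Fintype.card V)) :=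
        mul_le_mul_of_nonneg_left h1 ha.le
    _ = 1 := by field_simp

theorem psi_eq (hC : S_CYC) (g : Perm V) {a θ η : ℝ} (ha : 0 < a)
    (hV : 0 < (Fintype.card V : ℝ)) : max 0 (min 1 (a * kS (kp θ η) (a * Fintype.card V) g)) =
      a * kS (kp θ η) (a * Fintype.card V) g := by
  rw [min_eq_right (akS_le hC g ha hV), max_eq_right (akS_nonneg g ha)]

/-- the fraction of the points in the large cycles -/
theorem sandwich (hC : S_CYC) (g : Perm V) {a η : ℝ} (ha : 0 < a) (hη : 0 < η)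
    (hV : 0 < (Fintype.card V : ℝ)) :
    a * kS (kp 1 η) (a * Fintype.card V) g ≤
      (1 / Fintype.card V) * ∑ x, (if ((cyc g x).card : ℝ) ≤ a * Fintype.card V then (0 : ℝ) else 1) ∧
    (1 / Fintype.card V) * ∑ x, (if ((cyc g x).card : ℝ) ≤ a * Fintype.card V then (0 : ℝ) else 1) ≤
      a * kS (kp (1 - η) η) (a * Fintype.card V) g := by
  have hn : 0 < a * Fintype.card V := by positivity
  have h := (hC V g).2.2.2.2 (fun C => if (C.card : ℝ) ≤ a * Fintype.card V then (0 : ℝ) else 1)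
  have h1 : (1 / Fintype.card V) * ∑ x, (if ((cyc g x).card : ℝ) ≤ a * Fintype.card V then (0 : ℝ)
      else 1) = a * ∑ C ∈ cycs g, ((C.card : ℝ) / (a * Fintype.card V)) *
        (if (C.card : ℝ) ≤ a * Fintype.card V then (0 : ℝ) else 1) := by
    rw [h, mul_sum, mul_sum]
    refine sum_congr rfl fun C _ => ?_
    field_simp
  rw [h1]
  constructor
  · refine mul_le_mul_of_nonneg_left (sum_le_sum fun C _ => ?_) ha.le
    have hu : (0 : ℝ) ≤ (C.card : ℝ) / (a * Fintype.card V) := by positivity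
    split_ifs with hc
    · rw [kp_eq hu, ph1_zero hη, mul_zero]
      rw [div_le_one hn]
      exact hc
    · rw [mul_one]
      exact kp_le hu
  · refine mul_le_mul_of_nonneg_left (sum_le_sum fun C _ => ?_) ha.le
    have hu : (0 : ℝ) ≤ (C.card : ℝ) / (a * Fintype.card V) := by positivity
    split_ifs with hc
    · rw [mul_zero]
      exact kp_nonneg _ _ _
    · rw [mul_one, kp_eq hu, ph1_one hη, mul_one]
      have h2 : 1 ≤ (C.card : ℝ) / (a * Fintype.card V) := by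
        rw [one_le_div hn]
        exact (not_le.1 hc).le
      linarith

end cyc

/-! ### Uniform permutations -/

theorem unif (hU : S_UNI) {k : ℕ} (hk : 1 ≤ k) (h : ℕ → ℝ) :
    ∑ π : Perm (Fin k), ∑ x, h (cyc π x).card = k.factorial * ∑ j ∈ Icc 1 k, h j := by
  rw [sum_comm]
  have h1 : ∀ x : Fin k, ∑ π : Perm (Fin k), h (cyc π x).card =
      (k - 1).factorial * ∑ j ∈ Icc 1 k, h j := by
    intro x
    have hm : ∀ π ∈ (univ : Finset (Perm (Fin k))), (cyc π x).card ∈ Icc 1 k := by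
      intro π _
      rw [mem_Icc]
      refine ⟨card_pos.2 ⟨x, Pool.Agent.Q153.LC.self_mem_cyc π x⟩, ?_⟩
      refine (card_le_univ _).trans ?_
      rw [Fintype.card_fin]
    rw [← sum_fiberwise_of_maps_to hm, mul_sum]
    refine sum_congr rfl fun j hj => ?_
    rw [mem_Icc] at hj
    have h2 : ∀ π ∈ (univ : Finset (Perm (Fin k))).filter (fun π => (cyc π x).card = j),
        h (cyc π x).card = h j := by
      intro π hπ
      rw [(mem_filter.1 hπ).2]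
    rw [sum_congr rfl h2, sum_const, hU k x j hj.1 hj.2, nsmul_eq_mul]
  rw [sum_congr rfl fun x _ => h1 x, sum_const, card_univ, Fintype.card_fin, nsmul_eq_mul,
    ← mul_assoc, ← Nat.cast_mul, Nat.mul_factorial_pred (by omega)]

theorem unifS (hC : S_CYC) (hU : S_UNI) {k : ℕ} (hk : 1 ≤ k) {a θ η : ℝ} (ha : 0 < a) :
    (∑ π : Perm (Fin k), a * kS (kp θ η) (a * k) π) / (k.factorial : ℝ) =
      (∑ j ∈ Icc 1 k, ph1 θ η (j / (a * k))) / k := by
  have hk0 : (0 : ℝ) < k := by exact_mod_cast hk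
  have h1 : ∀ π : Perm (Fin k), a * kS (kp θ η) (a * k) π =
      ∑ x, (fun j : ℕ => ph1 θ η (j / (a * k)) / k) (cyc π x).card := by
    intro π
    have h := (hC (Fin k) π).2.2.2.2 (fun C => ph1 θ η (C.card / (a * k)) / k)
    simp only at h ⊢
    rw [h]
    unfold kS
    rw [mul_sum]
    refine sum_congr rfl fun C _ => ?_
    rw [kp_eq (by positivity)]
    field_simp
  have h2 := unif hU hk (fun j : ℕ => ph1 θ η (j / (a * k)) / k)
  have h3 : (k.factorial : ℝ) ≠ 0 := by exact_mod_cast k.factorial_ne_zero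
  rw [sum_congr rfl fun π _ => h1 π, h2, mul_div_cancel_left₀ _ h3, sum_div]

theorem count_up {k : ℕ} (hk : 1 ≤ k) {a η : ℝ} (ha : 0 < a) (ha1 : a ≤ 1) (hη : 0 < η)
    (hη2 : η ≤ 1 / 2) :
    (∑ j ∈ Icc 1 k, ph1 (1 - η) η (j / (a * k))) / k ≤ 1 - (1 - η) * a + 1 / k := by
  have hk0 : (0 : ℝ) < k := by exact_mod_cast hk
  obtain ⟨y, hy⟩ : ∃ y : ℝ, y = (1 - η) * (a * k) := ⟨_, rfl⟩
  have hy0 : 0 ≤ y := by
    rw [hy]
    have : 0 ≤ 1 - η := by linarith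
    positivity
  have hyk : y ≤ k := by
    rw [hy]
    nlinarith [mul_pos ha hk0]
  have h1 : ∑ j ∈ Icc 1 k, ph1 (1 - η) η (j / (a * k)) ≤
      ∑ j ∈ Icc 1 k, if j ∈ Ioc ⌊y⌋₊ k then (1 : ℝ) else 0 := by
    refine sum_le_sum fun j hj => ?_
    rw [mem_Icc] at hj
    split_ifs with h
    · exact ph1_le_one _ _ _
    · rw [ph1_zero hη]
      rw [mem_Ioc, not_and_or] at h
      have h2 : j ≤ ⌊y⌋₊ := by omega
      have h3 : (j : ℝ) ≤ y := (Nat.cast_le.2 h2).trans (Nat.floor_le hy0)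
      rw [div_le_iff₀ (by positivity), ← hy]
      exact h3
  have h2 : (∑ j ∈ Icc 1 k, if j ∈ Ioc ⌊y⌋₊ k then (1 : ℝ) else 0) ≤ k - y + 1 := by
    rw [sum_boole]
    have h3 : ((Icc 1 k).filter fun j => j ∈ Ioc ⌊y⌋₊ k).card ≤ k - ⌊y⌋₊ := by
      refine (card_le_card (t := Ioc ⌊y⌋₊ k) fun j hj => (mem_filter.1 hj).2).trans ?_
      rw [Nat.card_Ioc]
    have h4 : ⌊y⌋₊ ≤ k := by
      have := Nat.floor_le_floor hyk
      rwa [Nat.floor_natCast] at this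
    have h5 : (((Icc 1 k).filter fun j => j ∈ Ioc ⌊y⌋₊ k).card : ℝ) ≤ k - ⌊y⌋₊ := by
      rw [← Nat.cast_sub h4]
      exact_mod_cast h3
    have h6 := Nat.lt_floor_add_one y
    linarith
  rw [div_le_iff₀ hk0]
  have h3 : (1 - (1 - η) * a + 1 / k) * (k : ℝ) = k - y + 1 := by
    rw [hy]
    field_simp
  rw [h3]
  exact h1.trans h2

theorem count_lo {k : ℕ} (hk : 1 ≤ k) {a η : ℝ} (ha : 0 < a) (hη : 0 < η) :
    1 - (1 + η) * a ≤ (∑ j ∈ Icc 1 k, ph1 1 η (j / (a * k))) / k := by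
  have hk0 : (0 : ℝ) < k := by exact_mod_cast hk
  obtain ⟨y, hy⟩ : ∃ y : ℝ, y = (1 + η) * (a * k) := ⟨_, rfl⟩
  have hy0 : 0 < y := by rw [hy]; positivity
  have h1 : (∑ j ∈ Icc 1 k, if j ∈ Icc ⌈y⌉₊ k then (1 : ℝ) else 0) ≤
      ∑ j ∈ Icc 1 k, ph1 1 η (j / (a * k)) := by
    refine sum_le_sum fun j _ => ?_
    split_ifs with h
    · rw [ph1_one hη]
      rw [mem_Icc] at h
      have h3 : y ≤ j := (Nat.le_ceil y).trans (Nat.cast_le.2 h.1)
      rw [le_div_iff₀ (by positivity), ← hy]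
      exact h3
    · exact ph1_nonneg _ _ _
  have h2 : (k : ℝ) - y ≤ ∑ j ∈ Icc 1 k, if j ∈ Icc ⌈y⌉₊ k then (1 : ℝ) else 0 := by
    rw [sum_boole]
    have h0 : 0 < ⌈y⌉₊ := Nat.ceil_pos.2 hy0
    have h3 : k + 1 - ⌈y⌉₊ ≤ ((Icc 1 k).filter fun j => j ∈ Icc ⌈y⌉₊ k).card := by
      rw [← Nat.card_Icc]
      refine card_le_card fun j hj => ?_
      rw [mem_filter]
      refine ⟨?_, hj⟩
      rw [mem_Icc] at hj ⊢
      omega
    have h4 : (k : ℝ) + 1 ≤ ((Icc 1 k).filter fun j => j ∈ Icc ⌈y⌉₊ k).card + (⌈y⌉₊ : ℝ) := by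
      exact_mod_cast (by omega : k + 1 ≤ ((Icc 1 k).filter fun j => j ∈ Icc ⌈y⌉₊ k).card + ⌈y⌉₊)
    have h5 := Nat.ceil_lt_add_one hy0.le
    linarith
  rw [le_div_iff₀ hk0]
  have h3 : (1 - (1 + η) * a) * (k : ℝ) = k - y := by
    rw [hy]
    ring
  rw [h3]
  exact h2.trans h1

/-! ### Parameters -/

/-- the error term -/
theorem err_bd {C a η ε t : ℝ} {k : ℕ} (hC : 1 ≤ C) (ha : 0 < a) (ha1 : a ≤ 1) (hη : 0 < η)
    (hη2 : η ≤ 1 / 2) (hε : 0 < ε) (ht : 1 ≤ t) (hk : k = ⌊t ^ (1 / 32 : ℝ)⌋₊)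
    (h : 54 * C / (η * ε) * (a⁻¹) ^ 3 ≤ t ^ (1 / 64 : ℝ)) :
    1 / (k : ℝ) + C * (4 / η / a * Real.sqrt (2 / (1 / 2 * a)) * (t ^ (-(1 / 32) : ℝ) +
      1 / Real.sqrt k) + k * t ^ (-(1 / 16) : ℝ)) ≤ ε / 2 * a := by
  have ht0 : 0 < t := by linarith
  obtain ⟨s, hs⟩ : ∃ s : ℝ, s = t ^ (1 / 64 : ℝ) := ⟨_, rfl⟩
  have hs1 : 1 ≤ s := by rw [hs]; exact Real.one_le_rpow ht (by norm_num)
  have hs0 : 0 < s := by linarith
  have hs2 : t ^ (1 / 32 : ℝ) = s ^ 2 := by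
    rw [hs, ← Real.rpow_natCast, ← Real.rpow_mul ht0.le]
    norm_num
  have hs4 : t ^ (-(1 / 16) : ℝ) = (s ^ 4)⁻¹ := by
    rw [hs, ← Real.rpow_natCast, ← Real.rpow_mul ht0.le, Real.rpow_neg ht0.le]
    norm_num
  have hs3 : t ^ (-(1 / 32) : ℝ) = (s ^ 2)⁻¹ := by
    rw [Real.rpow_neg ht0.le, hs2]
  rw [hs2] at hk
  rw [← hs] at h
  rw [hs3, hs4]
  have hk1 : (k : ℝ) ≤ s ^ 2 := by rw [hk]; exact Nat.floor_le (by positivity)
  have hk2 : s ^ 2 < k + 1 := by rw [hk]; exact Nat.lt_floor_add_one _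
  have hk3 : 1 ≤ k := by
    rw [hk]
    exact Nat.le_floor (by rw [Nat.cast_one]; exact one_le_pow₀ hs1)
  have hk4 : (1 : ℝ) ≤ k := by exact_mod_cast hk3
  have hk5 : s ^ 2 / 2 ≤ k := by linarith
  have hk6 : s / 2 ≤ Real.sqrt k := by
    apply Real.le_sqrt_of_sq_le
    nlinarith [sq_nonneg s]
  have g1 : 1 / (k : ℝ) ≤ 2 / s := by
    rw [div_le_div_iff₀ (by linarith) hs0]
    nlinarith
  have g2 : 1 / Real.sqrt k ≤ 2 / s := by
    rw [div_le_div_iff₀ (by linarith [half_pos hs0]) hs0]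
    linarith
  have g3 : (s ^ 2)⁻¹ ≤ 1 / s := by
    rw [← one_div]
    apply one_div_le_one_div_of_le hs0
    nlinarith
  have g4 : (k : ℝ) * (s ^ 4)⁻¹ ≤ 1 / s := by
    rw [← div_eq_mul_inv, div_le_div_iff₀ (by positivity) hs0]
    have : s ^ 2 * s ≤ 1 * s ^ 4 := by nlinarith [pow_pos hs0 3]
    exact (mul_le_mul_of_nonneg_right hk1 hs0.le).trans this
  have g5 : Real.sqrt (2 / (1 / 2 * a)) ≤ 2 / a := by
    rw [Real.sqrt_le_left (by positivity)]
    rw [div_pow, div_le_div_iff₀ (by positivity) (by positivity)]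
    nlinarith
  have g6 : 4 / η / a * Real.sqrt (2 / (1 / 2 * a)) * ((s ^ 2)⁻¹ + 1 / Real.sqrt k) ≤
      4 / η / a * (2 / a) * (1 / s + 2 / s) := by
    gcongr
  have g7 : 4 / η / a * (2 / a) * (1 / s + 2 / s) = 24 / (η * a ^ 2) / s := by
    field_simp
    ring
  have g8 : 1 ≤ 1 / (η * a ^ 2) := by
    rw [le_div_iff₀ (by positivity)]
    have : a ^ 2 ≤ 1 := pow_le_one₀ ha.le ha1
    nlinarith [sq_nonneg a]
  have g9 : 1 / (k : ℝ) + C * (4 / η / a * Real.sqrt (2 / (1 / 2 * a)) * ((s ^ 2)⁻¹ +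
      1 / Real.sqrt k) + k * (s ^ 4)⁻¹) ≤ 27 * C / (η * a ^ 2) / s := by
    have e1 : C * (4 / η / a * Real.sqrt (2 / (1 / 2 * a)) * ((s ^ 2)⁻¹ +
        1 / Real.sqrt k) + k * (s ^ 4)⁻¹) ≤ C * (24 / (η * a ^ 2) / s + 1 / s) :=
      mul_le_mul_of_nonneg_left (add_le_add (g6.trans (le_of_eq g7)) g4) (by linarith)
    have e2 : 1 / s ≤ C * (1 / (η * a ^ 2)) / s :=
      div_le_div_of_nonneg_right (one_le_mul_of_one_le_of_one_le hC g8) hs0.le
    have e3 : C * (24 / (η * a ^ 2) / s + 1 / s) = C * (24 / (η * a ^ 2)) / s + C * (1 / s) := by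
      ring
    have e4 : C * (1 / s) ≤ C * (1 / (η * a ^ 2)) / s := by
      rw [mul_one_div]
      exact div_le_div_of_nonneg_right (le_mul_of_one_le_right (by linarith) g8) hs0.le
    have e5 : 2 / s = 2 * (1 / s) := by ring
    rw [e5] at g1
    rw [e3] at e1
    have e6 : 27 * C / (η * a ^ 2) / s = C * (24 / (η * a ^ 2)) / s +
        3 * (C * (1 / (η * a ^ 2)) / s) := by ring
    rw [e6]
    linarith only [e1, e2, e4, g1]
  refine g9.trans ?_
  rw [div_le_iff₀ hs0]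
  have f1 : 27 * C / (η * a ^ 2) = ε / 2 * a * (54 * C / (η * ε) * (a⁻¹) ^ 3) := by
    field_simp
    ring
  rw [f1]
  exact mul_le_mul_of_nonneg_left h (by positivity)

/-- the comparison for the test functions -/
theorem cmp_test (hCYC : S_CYC) (hUNI : S_UNI) {d L k : ℕ} [NeZero L] {t a θ η C : ℝ}
    (hk : 1 ≤ k) (ha : 0 < a) (ha1 : a ≤ 1) (hη : 0 < η) (hη2 : η ≤ 1 / 2) (hθ : 1 / 2 ≤ θ)
    (hθ1 : θ ≤ 1)
    (h : ∀ (κ Ψ : ℝ → ℝ), (∀ x, x ≤ 1 / 2 → κ x = 0) →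
      (∀ x y, |κ x - κ y| ≤ 4 / η * |x - y|) → (∀ x y, |Ψ x - Ψ y| ≤ |x - y|) → (∀ x, |Ψ x| ≤ 1) →
      |stirExp (nnRate d L) t (fun g => Ψ (kS κ (a * (L : ℝ) ^ d) g)) -
        (∑ π : Perm (Fin k), Ψ (kS κ (a * k) π)) / (k.factorial : ℝ)| ≤ C) :
    |stirExp (nnRate d L) t (fun g => a * kS (kp θ η) (a * (L : ℝ) ^ d) g) -
      (∑ j ∈ Icc 1 k, ph1 θ η (j / (a * k))) / k| ≤ C := by
  have hk0 : (0 : ℝ) < k := by exact_mod_cast hk
  have hL0 : (0 : ℝ) < L := by exact_mod_cast Nat.pos_of_ne_zero (NeZero.ne L)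
  have hcard : (Fintype.card (Fin d → ZMod L) : ℝ) = (L : ℝ) ^ d := by
    rw [Fintype.card_fun, ZMod.card, Fintype.card_fin]
    push_cast
    rfl
  have hc1 : (0 : ℝ) < (Fintype.card (Fin d → ZMod L) : ℝ) := by
    rw [hcard]
    positivity
  have hc2 : (0 : ℝ) < (Fintype.card (Fin k) : ℝ) := by
    rw [Fintype.card_fin]
    exact hk0
  have h1 := h (kp θ η) (fun x => max 0 (min 1 (a * x))) (fun x hx => kp_zero hη hθ hx)
    (kp_lip hη hη2 hθ hθ1) (fun x y => by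
      refine (abs_max_sub_max_le_max _ _ _ _).trans ?_
      rw [sub_self, abs_zero]
      refine max_le (abs_nonneg _) ((abs_min_sub_min_le_max _ _ _ _).trans ?_)
      rw [sub_self, abs_zero]
      refine max_le (abs_nonneg _) ?_
      rw [← mul_sub, abs_mul, abs_of_pos ha]
      exact mul_le_of_le_one_left (abs_nonneg _) ha1) (fun x => by
      rw [abs_of_nonneg (le_max_left _ _)]
      exact max_le zero_le_one (min_le_left _ _))
  have e1 : ∀ g : Perm (Fin d → ZMod L), max 0 (min 1 (a * kS (kp θ η) (a * (L : ℝ) ^ d) g)) =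
      a * kS (kp θ η) (a * (L : ℝ) ^ d) g := by
    intro g
    have := psi_eq (θ := θ) (η := η) hCYC g ha hc1
    rwa [hcard] at this
  have e2 : ∀ π : Perm (Fin k), max 0 (min 1 (a * kS (kp θ η) (a * k) π)) =
      a * kS (kp θ η) (a * k) π := by
    intro π
    have := psi_eq (θ := θ) (η := η) hCYC π ha hc2
    rwa [Fintype.card_fin] at this
  simp only [e1, e2] at h1
  rwa [unifS hCYC hUNI hk ha] at h1

/-- the law of the length of the cycle of one point and the fraction of the points in large cycles -/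
theorem one_point {d L : ℕ} [NeZero L] (t n : ℝ) (x : Fin d → ZMod L) :
    stirExp (nnRate d L) t (fun g => 1 / (L : ℝ) ^ d *
      ∑ y, (if ((cyc g y).card : ℝ) ≤ n then (0 : ℝ) else 1)) =
    1 - stirExp (nnRate d L) t (fun g => if ((cyc g x).card : ℝ) ≤ n then 1 else 0) := by
  have hL0 : (0 : ℝ) < L := by exact_mod_cast Nat.pos_of_ne_zero (NeZero.ne L)
  have hN0 : (0 : ℝ) < (L : ℝ) ^ d := pow_pos hL0 d
  have hcard : (Fintype.card (Fin d → ZMod L) : ℝ) = (L : ℝ) ^ d := by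
    rw [Fintype.card_fun, ZMod.card, Fintype.card_fin]
    push_cast
    rfl
  have h1 : ∀ y : Fin d → ZMod L,
      stirExp (nnRate d L) t (fun g => if ((cyc g y).card : ℝ) ≤ n then (0 : ℝ) else 1) =
      1 - stirExp (nnRate d L) t (fun g => if ((cyc g x).card : ℝ) ≤ n then 1 else 0) := by
    intro y
    have e1 : stirExp (nnRate d L) t (fun g => if ((cyc g x).card : ℝ) ≤ n then (1 : ℝ) else 0) =
        stirExp (nnRate d L) t (fun g => if ((cyc g y).card : ℝ) ≤ n then 1 else 0) := by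
      rw [cyc_trans2 t (fun k => if (k : ℝ) ≤ n then 1 else 0) y,
        cyc_trans2 t (fun k => if (k : ℝ) ≤ n then 1 else 0) x]
    rw [e1, eq_sub_iff_add_eq]
    have e2 : stirExp (nnRate d L) t (fun g => if ((cyc g y).card : ℝ) ≤ n then (0 : ℝ) else 1) +
        stirExp (nnRate d L) t (fun g => if ((cyc g y).card : ℝ) ≤ n then (1 : ℝ) else 0) =
        stirExp (nnRate d L) t (fun _ => 1) := by
      unfold stirExp
      rw [← sum_add_distrib]
      refine sum_congr rfl fun g _ => ?_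
      beta_reduce
      split_ifs <;> ring
    rw [e2, exp_const]
  have h2 : stirExp (nnRate d L) t (fun g => 1 / (L : ℝ) ^ d *
      ∑ y, (if ((cyc g y).card : ℝ) ≤ n then (0 : ℝ) else 1)) = 1 / (L : ℝ) ^ d *
      ∑ y, stirExp (nnRate d L) t (fun g => if ((cyc g y).card : ℝ) ≤ n then (0 : ℝ) else 1) := by
    rw [exp_sum]
    unfold stirExp
    rw [mul_sum]
    refine sum_congr rfl fun g _ => ?_
    ring
  rw [h2, sum_congr rfl fun y _ => h1 y, sum_const, card_univ, nsmul_eq_mul, hcard]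
  field_simp

theorem gapo (hCMP : S_CMP) (hUNI : S_UNI) (hCYC : S_CYC) : S_GAPO := by
  intro d hd p
  obtain ⟨C, mc, L₀, hC, hcmp⟩ := hCMP d hd
  refine ⟨max mc (384 * p) + 1, by omega, fun ε hε => ?_⟩
  obtain ⟨η, hη0, hη2, hηε⟩ : ∃ η : ℝ, 0 < η ∧ η ≤ 1 / 2 ∧ η ≤ ε / 2 :=
    ⟨min (1 / 2) (ε / 2), by positivity, min_le_left _ _, min_le_right _ _⟩
  obtain ⟨D, hD⟩ : ∃ D : ℝ, D = 54 * C / (η * ε) := ⟨_, rfl⟩
  have hD0 : 0 < D := by rw [hD]; positivity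
  refine ⟨max (max 3 ((L₀ : ℝ) ^ 2)) (D ^ 128), (le_max_left _ _).trans (le_max_left _ _), ?_⟩
  intro L _ t n hL3 hTt hlog ht4 hn0 hn1 hn2 x
  have hT1 : 3 ≤ t := ((le_max_left _ _).trans (le_max_left _ _)).trans hTt
  have hT2 : (L₀ : ℝ) ^ 2 ≤ t := ((le_max_right _ _).trans (le_max_left _ _)).trans hTt
  have hT3 : D ^ 128 ≤ t := (le_max_right _ _).trans hTt
  have ht0 : 0 < t := by linarith
  have hL0 : (0 : ℝ) < L := by exact_mod_cast Nat.pos_of_ne_zero (NeZero.ne L)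
  have hN0 : (0 : ℝ) < (L : ℝ) ^ d := pow_pos hL0 d
  have hcard : (Fintype.card (Fin d → ZMod L) : ℝ) = (L : ℝ) ^ d := by
    rw [Fintype.card_fun, ZMod.card, Fintype.card_fin]
    push_cast
    rfl
  have hl1 : 1 ≤ Real.log L := by
    rw [Real.le_log_iff_exp_le hL0]
    have h1 := Real.exp_one_lt_d9
    have h2 : (3 : ℝ) ≤ L := by exact_mod_cast hL3
    linarith
  -- the box is large
  have hLL : L₀ ≤ L := by
    by_contra hlt
    push Not at hlt
    have h1 : (L : ℝ) ^ 7 < (L₀ : ℝ) ^ 7 := by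
      apply pow_lt_pow_left₀ _ hL0.le (by norm_num)
      exact_mod_cast hlt
    have h2 : (1 : ℝ) ≤ L₀ := by
      have : 1 ≤ L₀ := by omega
      exact_mod_cast this
    have h3 : ((L₀ : ℝ) ^ 2) ^ 4 ≤ t ^ 4 := pow_le_pow_left₀ (by positivity) hT2 4
    have h4 : (L₀ : ℝ) ^ 7 ≤ ((L₀ : ℝ) ^ 2) ^ 4 := by
      rw [← pow_mul]
      exact pow_le_pow_right₀ h2 (by norm_num)
    linarith
  obtain ⟨a, ha⟩ : ∃ a : ℝ, a = n / (L : ℝ) ^ d := ⟨_, rfl⟩
  have ha0 : 0 < a := by rw [ha]; positivity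
  have ha1 : a ≤ 1 := by rw [ha, div_le_one hN0]; exact hn2
  have haN : a * (L : ℝ) ^ d = n := by rw [ha]; field_simp
  have hainv : a⁻¹ ≤ (Real.log L) ^ p := by
    rw [ha, inv_div, div_le_iff₀ hn0]
    exact hn1
  -- the size of t
  have hbig : 54 * C / (η * ε) * (a⁻¹) ^ 3 ≤ t ^ (1 / 64 : ℝ) := by
    have h1 : t ^ (1 / 64 : ℝ) = t ^ (1 / 128 : ℝ) * t ^ (1 / 128 : ℝ) := by
      rw [← Real.rpow_add ht0]
      norm_num
    have h2 : D ≤ t ^ (1 / 128 : ℝ) := by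
      have h3 : (D ^ 128) ^ (1 / 128 : ℝ) = D := by
        rw [← Real.rpow_natCast, ← Real.rpow_mul hD0.le]
        norm_num
      rw [← h3]
      exact Real.rpow_le_rpow (by positivity) hT3 (by norm_num)
    have h4 : (a⁻¹) ^ 3 ≤ t ^ (1 / 128 : ℝ) := by
      have h5 : (a⁻¹) ^ 3 ≤ (Real.log L) ^ (3 * p) := by
        rw [mul_comm, pow_mul]
        exact pow_le_pow_left₀ (by positivity) hainv 3
      have h6 : ((Real.log L) ^ (384 * p)) ^ (1 / 128 : ℝ) = (Real.log L) ^ (3 * p) := by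
        rw [← Real.rpow_natCast, ← Real.rpow_natCast, ← Real.rpow_mul (by linarith)]
        congr 1
        push_cast
        ring
      have h7 : (Real.log L) ^ (384 * p) ≤ t :=
        (pow_le_pow_right₀ hl1 (by omega)).trans hlog
      refine h5.trans ?_
      rw [← h6]
      exact Real.rpow_le_rpow (by positivity) h7 (by norm_num)
    rw [h1, ← hD]
    exact mul_le_mul h2 h4 (by positivity) (by positivity)
  obtain ⟨k, hk⟩ : ∃ k : ℕ, k = ⌊t ^ (1 / 32 : ℝ)⌋₊ := ⟨_, rfl⟩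
  have hk1 : 1 ≤ k := by
    rw [hk]
    apply Nat.le_floor
    rw [Nat.cast_one]
    exact Real.one_le_rpow (by linarith) (by norm_num)
  have hk16 : (k : ℝ) ^ 16 ≤ t := by
    have h1 : (k : ℝ) ≤ t ^ (1 / 32 : ℝ) := by rw [hk]; exact Nat.floor_le (by positivity)
    calc (k : ℝ) ^ 16 ≤ (t ^ (1 / 32 : ℝ)) ^ 16 := pow_le_pow_left₀ (Nat.cast_nonneg _) h1 16
      _ = t ^ (1 / 2 : ℝ) := by
          rw [← Real.rpow_natCast, ← Real.rpow_mul ht0.le]
          norm_num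
      _ ≤ t ^ (1 : ℝ) := Real.rpow_le_rpow_of_exponent_le (by linarith) (by norm_num)
      _ = t := Real.rpow_one t
  have herr := err_bd hC ha0 ha1 hη0 hη2 hε (by linarith) hk hbig
  obtain ⟨E, hE⟩ : ∃ E : ℝ, E = C * (4 / η / a * Real.sqrt (2 / (1 / 2 * a)) *
    (t ^ (-(1 / 32) : ℝ) + 1 / Real.sqrt k) + k * t ^ (-(1 / 16) : ℝ)) := ⟨_, rfl⟩
  rw [← hE] at herr
  have hcmp' : ∀ (κ Ψ : ℝ → ℝ), (∀ x, x ≤ 1 / 2 → κ x = 0) →
      (∀ x y, |κ x - κ y| ≤ 4 / η * |x - y|) → (∀ x y, |Ψ x - Ψ y| ≤ |x - y|) → (∀ x, |Ψ x| ≤ 1) →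
      |stirExp (nnRate d L) t (fun g => Ψ (kS κ (a * (L : ℝ) ^ d) g)) -
        (∑ π : Perm (Fin k), Ψ (kS κ (a * k) π)) / (k.factorial : ℝ)| ≤ E := by
    intro κ Ψ g1 g2 g3 g4
    rw [hE]
    exact hcmp L k t a (1 / 2) (4 / η) κ Ψ hLL (by linarith)
      ((pow_le_pow_right₀ hl1 (by omega)).trans hlog) ht4 hk1 hk16 ha0 ha1 (by norm_num)
      (by positivity) g1 g2 g3 g4
  have c1 := cmp_test (θ := 1) hCYC hUNI hk1 ha0 ha1 hη0 hη2 (by norm_num) le_rfl hcmp'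
  have c2 := cmp_test (θ := 1 - η) hCYC hUNI hk1 ha0 ha1 hη0 hη2 (by linarith) (by linarith) hcmp'
  have u1 := count_lo hk1 ha0 hη0 (η := η)
  have u2 := count_up hk1 ha0 ha1 hη0 hη2
  have hc1 : (0 : ℝ) < (Fintype.card (Fin d → ZMod L) : ℝ) := by
    rw [hcard]
    exact hN0
  have s1 : stirExp (nnRate d L) t (fun g => a * kS (kp 1 η) (a * (L : ℝ) ^ d) g) ≤
      stirExp (nnRate d L) t (fun g => 1 / (L : ℝ) ^ d *
        ∑ y, (if ((cyc g y).card : ℝ) ≤ n then (0 : ℝ) else 1)) := by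
    refine exp_mono (J := nnRate d L) nn_nonneg ht0.le fun g => ?_
    have := (sandwich hCYC g ha0 hη0 hc1).1
    rw [hcard, haN] at this
    rw [haN]
    exact this
  have s2 : stirExp (nnRate d L) t (fun g => 1 / (L : ℝ) ^ d *
        ∑ y, (if ((cyc g y).card : ℝ) ≤ n then (0 : ℝ) else 1)) ≤
      stirExp (nnRate d L) t (fun g => a * kS (kp (1 - η) η) (a * (L : ℝ) ^ d) g) := by
    refine exp_mono (J := nnRate d L) nn_nonneg ht0.le fun g => ?_
    have := (sandwich hCYC g ha0 hη0 hc1).2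
    rw [hcard, haN] at this
    rw [haN]
    exact this
  rw [one_point t n x] at s1 s2
  rw [← ha]
  have hka : 0 ≤ 1 / (k : ℝ) := by positivity
  have hηa : η * a ≤ ε / 2 * a := mul_le_mul_of_nonneg_right hηε ha0.le
  obtain ⟨c11, c12⟩ := abs_le.1 c1
  obtain ⟨c21, c22⟩ := abs_le.1 c2
  have q1 : (1 - η) * a = a - η * a := by ring
  have q2 : (1 + η) * a = a + η * a := by ring
  have q3 : ε * a = ε / 2 * a + ε / 2 * a := by ring
  rw [q1] at u2
  rw [q2] at u1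
  rw [abs_le, q3]
  constructor
  · linarith only [s2, c22, u2, herr, hηa]
  · linarith only [s1, c11, u1, herr, hηa, hka]

end Pool.Agent.H894.MS
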